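import Mathlib

namespace Pool.Agent.Results.MP_e93574_an.WeaklyContractive

open Filter Topology NNReal

/-- The class `Γ`: continuous, nondecreasing, subadditive maps `γ : [0,∞) → [0,∞)` that vanish
exactly at `0`. -/
structure IsGamma (γ : ℝ≥0 → ℝ≥0) : Prop where
  continuous : Continuous γ
  monotone : Monotone γ
  subadditive : ∀ s t, γ (s + t) ≤ γ s + γ t
  zero_iff : ∀ t, γ t = 0 ↔ t = 0

/-- The class `𝒜`: maps `θ : [0,∞) → [0,∞)` such that for some `ε₀ > 0` and `γ ∈ Γ`,
`θ t ≤ ε₀` implies `θ t ≥ γ t`, for all `t`. -/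
def ClassA (θ : ℝ≥0 → ℝ≥0) : Prop :=
  ∃ ε₀ : ℝ≥0, 0 < ε₀ ∧ ∃ γ : ℝ≥0 → ℝ≥0, IsGamma γ ∧ ∀ t, θ t ≤ ε₀ → γ t ≤ θ t

lemma gamma_nsmul {γ : ℝ≥0 → ℝ≥0} (h : IsGamma γ) (n : ℕ) (t : ℝ≥0) :
    γ (n * t) ≤ n * γ t := by
  induction n with
  | zero => simp [(h.zero_iff 0).2 rfl]
  | succ n ih =>
    have h1 : ((n + 1 : ℕ) : ℝ≥0) * t = n * t + t := by push_cast; ring
    rw [h1]
    calc γ (n * t + t) ≤ γ (n * t) + γ t := h.subadditive _ _
      _ ≤ n * γ t + γ t := by gcongr
      _ = ((n + 1 : ℕ) : ℝ≥0) * γ t := by push_cast; ring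

/-- A subadditive `γ ∈ Γ` is bounded below by a linear function near `0`. -/
lemma gamma_lower {γ : ℝ≥0 → ℝ≥0} (h : IsGamma γ) (t : ℝ≥0) :
    min ((γ 1 : ℝ)) ((γ 1 : ℝ) / 2 * t) ≤ γ t := by
  rcases le_or_gt 1 t with ht | ht
  · exact (min_le_left _ _).trans (by exact_mod_cast h.monotone ht)
  · refine (min_le_right _ _).trans ?_
    rcases eq_or_ne t 0 with rfl | h0
    · simp
    · have htpos : (0 : ℝ) < t := by
        have : 0 < t := pos_iff_ne_zero.2 h0
        exact_mod_cast this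
      have ht1 : (t : ℝ) < 1 := by exact_mod_cast ht
      set n := ⌈(1 / t : ℝ)⌉₊ with hn
      have hn1 : (1 / t : ℝ) ≤ n := Nat.le_ceil _
      have hn2 : (n : ℝ) < 1 / t + 1 := Nat.ceil_lt_add_one (by positivity)
      have hone : (1 : ℝ) < 1 / t := by
        rw [lt_div_iff₀ htpos]; linarith
      have hn3 : (n : ℝ) ≤ 2 / t := by
        have : (2 / t : ℝ) = 1 / t + 1 / t := by ring
        linarith
      have h1 : (1 : ℝ≥0) ≤ n * t := by
        have : (1 : ℝ) ≤ n * t := by
          rw [div_le_iff₀ htpos] at hn1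
          exact hn1
        exact_mod_cast this
      have h2 : γ 1 ≤ n * γ t := (h.monotone h1).trans (gamma_nsmul h n t)
      have h3 : (γ 1 : ℝ) ≤ n * γ t := by exact_mod_cast h2
      have h4 : (γ 1 : ℝ) ≤ 2 / t * γ t := h3.trans (by gcongr)
      calc (γ 1 : ℝ) / 2 * t ≤ (2 / t * γ t) / 2 * t := by gcongr
        _ = γ t := by field_simp

/-- **Weakly contractive set-valued maps on complete metric spaces have fixed points.** -/
theorem result (X : Type*) [MetricSpace X] [CompleteSpace X] [Nonempty X]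
    (T : X → Set X)
    (hT : ∀ x, (T x).Nonempty ∧ IsClosed (T x) ∧ Bornology.IsBounded (T x))
    (θ : ℝ≥0 → ℝ≥0) (hθ : ClassA θ)
    (hw : ∀ x y, Metric.hausdorffDist (T x) (T y) ≤ dist x y - θ (nndist x y)) :
    ∃ x, x ∈ T x := by
  obtain ⟨ε₀, hε₀, γ, hγ, hθγ⟩ := hθ
  have hγ1 : (0 : ℝ) < γ 1 := by
    have : γ 1 ≠ 0 := fun h => one_ne_zero ((hγ.zero_iff 1).1 h)
    exact_mod_cast pos_iff_ne_zero.2 this
  have hε₀' : (0 : ℝ) < ε₀ := by exact_mod_cast hε₀
  set δ : ℝ := min ε₀ (γ 1) with hδ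
  have hδpos : 0 < δ := lt_min hε₀' hγ1
  set c : ℝ := min ((γ 1 : ℝ) / 2) 1 with hc
  have hcpos : 0 < c := lt_min (by positivity) one_pos
  -- lower bound for `θ`
  have hlow : ∀ t : ℝ≥0, min δ (c * t) ≤ θ t := by
    intro t
    rcases le_or_gt (θ t) ε₀ with h | h
    · have h1 : (γ t : ℝ) ≤ θ t := by exact_mod_cast hθγ t h
      refine le_trans ?_ h1
      refine le_trans ?_ (gamma_lower hγ t)
      refine min_le_min (min_le_right _ _) ?_
      gcongr
      exact min_le_left _ _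
    · refine (min_le_left _ _).trans ((min_le_left _ _).trans ?_)
      exact_mod_cast h.le
  have hfin : ∀ x y, Metric.hausdorffEDist (T x) (T y) ≠ ⊤ := fun x y =>
    Metric.hausdorffEDist_ne_top_of_nonempty_of_bounded (hT x).1 (hT y).1 (hT x).2.2 (hT y).2.2
  by_contra hno
  push Not at hno
  -- the step
  have hstep : ∀ p : {p : X × X // p.2 ∈ T p.1}, ∃ q : {p : X × X // p.2 ∈ T p.1},
      q.1.1 = p.1.2 ∧
      dist q.1.1 q.1.2 ≤ dist p.1.1 p.1.2 - min δ (c * dist p.1.1 p.1.2) / 2 := by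
    rintro ⟨⟨x, y⟩, hy⟩
    have hxy : x ≠ y := by
      rintro rfl
      exact hno _ hy
    have hd : 0 < dist x y := dist_pos.2 hxy
    have h1 : Metric.hausdorffDist (T x) (T y) < dist x y - min δ (c * dist x y) / 2 := by
      have h2 := hw x y
      have h3 := hlow (nndist x y)
      rw [coe_nndist] at h3
      have h4 : 0 < min δ (c * dist x y) := lt_min hδpos (by positivity)
      linarith
    obtain ⟨z, hz, hyz⟩ := Metric.exists_dist_lt_of_hausdorffDist_lt hy h1 (hfin x y)
    exact ⟨⟨⟨y, z⟩, hz⟩, rfl, hyz.le⟩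
  choose F hF1 hF2 using hstep
  obtain ⟨x0⟩ := ‹Nonempty X›
  obtain ⟨x1, hx1⟩ := (hT x0).1
  let s : ℕ → {p : X × X // p.2 ∈ T p.1} := fun n => F^[n] ⟨⟨x0, x1⟩, hx1⟩
  have hs : ∀ n, s (n + 1) = F (s n) := fun n => Function.iterate_succ_apply' _ _ _
  let x : ℕ → X := fun n => (s n).1.1
  have hx : ∀ n, x (n + 1) = (s n).1.2 := fun n => by
    simp only [x, hs, hF1]
  have hmem : ∀ n, x (n + 1) ∈ T (x n) := fun n => by
    rw [hx]; exact (s n).2
  set d : ℕ → ℝ := fun n => dist (x n) (x (n + 1)) with hd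
  have hdpos : ∀ n, 0 < d n := fun n => by
    refine dist_pos.2 fun h => hno (x n) ?_
    have := hmem n
    rwa [← h] at this
  have hdstep : ∀ n, d (n + 1) ≤ d n - min δ (c * d n) / 2 := by
    intro n
    have h1 := hF2 (s n)
    rw [← hs] at h1
    simp only [hd]
    rw [hx (n + 1), hx n]
    have h2 : x n = (s n).1.1 := rfl
    have h3 : (s (n + 1)).1.1 = (s n).1.2 := by rw [hs, hF1]
    rw [h3] at h1
    rw [h2]
    exact h1
  have hdle : ∀ n, d n ≤ d 0 := by
    intro n
    induction n with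
    | zero => exact le_rfl
    | succ n ih =>
      have h1 := hdstep n
      have h2 : 0 < min δ (c * d n) := lt_min hδpos (mul_pos hcpos (hdpos n))
      linarith
  set c' : ℝ := min (δ / d 0) c with hc'
  have hc'pos : 0 < c' := lt_min (div_pos hδpos (hdpos 0)) hcpos
  have hc'1 : c' ≤ 1 := (min_le_right _ _).trans (min_le_right _ _)
  have hgeo : ∀ n, d (n + 1) ≤ (1 - c' / 2) * d n := by
    intro n
    have h1 : c' * d n ≤ min δ (c * d n) := by
      refine le_min ?_ ?_
      · calc c' * d n ≤ δ / d 0 * d 0 := by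
              have := hdle n
              have h5 := (hdpos n).le
              gcongr
              exact min_le_left _ _
          _ = δ := div_mul_cancel₀ _ (hdpos 0).ne'
      · have h5 := (hdpos n).le
        gcongr
        exact min_le_right _ _
    have h2 := hdstep n
    nlinarith
  have hpow : ∀ n, d n ≤ d 0 * (1 - c' / 2) ^ n := by
    intro n
    induction n with
    | zero => simp
    | succ n ih =>
      calc d (n + 1) ≤ (1 - c' / 2) * d n := hgeo n
        _ ≤ (1 - c' / 2) * (d 0 * (1 - c' / 2) ^ n) := by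
            have : 0 ≤ 1 - c' / 2 := by linarith
            gcongr
        _ = d 0 * (1 - c' / 2) ^ (n + 1) := by ring
  have hcauchy : CauchySeq x :=
    cauchySeq_of_le_geometric (1 - c' / 2) (d 0) (by linarith) hpow
  obtain ⟨z, hz⟩ := cauchySeq_tendsto_of_complete hcauchy
  refine hno z ?_
  have h1 : ∀ n, Metric.infDist (x (n + 1)) (T z) ≤ dist (x n) z := by
    intro n
    calc Metric.infDist (x (n + 1)) (T z) ≤ Metric.hausdorffDist (T (x n)) (T z) :=
          Metric.infDist_le_hausdorffDist_of_mem (hmem n) (hfin _ _)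
      _ ≤ dist (x n) z - θ (nndist (x n) z) := hw _ _
      _ ≤ dist (x n) z := by
          have : (0 : ℝ) ≤ θ (nndist (x n) z) := NNReal.coe_nonneg _
          linarith
  have h2 : Tendsto (fun n => Metric.infDist (x (n + 1)) (T z)) atTop
      (𝓝 (Metric.infDist z (T z))) :=
    (Metric.continuous_infDist_pt (T z)).continuousAt.tendsto.comp
      (hz.comp (tendsto_add_atTop_nat 1))
  have h3 : Tendsto (fun n => dist (x n) z) atTop (𝓝 0) := by
    rw [← dist_self z]
    exact hz.dist tendsto_const_nhds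
  have h4 : Metric.infDist z (T z) ≤ 0 := le_of_tendsto_of_tendsto' h2 h3 h1
  have h5 : Metric.infDist z (T z) = 0 := le_antisymm h4 Metric.infDist_nonneg
  have h6 := (Metric.mem_closure_iff_infDist_zero (hT z).1).2 h5
  rwa [(hT z).2.1.closure_eq] at h6

end Pool.Agent.Results.MP_e93574_an.WeaklyContractive
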